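import Pool.Agent.H32.Coal

set_option autoImplicit false
open MeasureTheory ProbabilityTheory Filter Topology
open scoped ENNReal
open Pool.Agent.H32.PCA

namespace Pool.Agent.Results.MP_37af32_pr.Slow

def occ (l c : Fin 3) : Prop := c = 1 ∨ l = 2

open Classical in
noncomputable def rule (l c _q : Fin 3) : Measure (Fin 3) :=
  if occ l c then coin 1 2 else Measure.dirac 0

instance isProb_rule (l c q : Fin 3) : IsProbabilityMeasure (rule l c q) := by
  unfold rule
  split_ifs <;> infer_instance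

instance isProb_F (u : N3 → Fin 3) : IsProbabilityMeasure (lift3 rule u) := isProb_rule _ _ _

def ok (l c _q b : Fin 3) : Prop := b ≠ 0 ↔ occ l c

lemma rule_ok (l c q : Fin 3) : rule l c q {b | ¬ ok l c q b} = 0 := by
  unfold rule
  split_ifs with h
  · apply coin_null <;> simp [ok, h]
  · simp [ok, h]

lemma rule_half (l c q : Fin 3) (k : Fin 3) (hk : k ≠ 0) :
    (rule l c q).real {a | id a = k} ≤ 1 / 2 := by
  unfold rule
  split_ifs with h
  · by_cases h1 : k = 1
    · apply coin_half_right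
      simp [h1]
    · apply coin_half_left
      simpa [eq_comm] using h1
  · simp [Measure.real, hk.symm]

lemma rule_zero (x : Z1 → Fin 3) (i : ℤ) (h : ¬ (phi id i x ∨ False)) :
    lift3 rule (fun v : N3 => x (e i + v)) {a | id a ≠ 0} = 0 := by
  rw [lift3_apply]
  refine measure_mono_null (fun b hb => ?_) (rule_ok _ _ _)
  intro hok
  exact h (Or.inl (hok.1 hb))

lemma site_unif (k : Z1) (ε : ℝ) (hε : 0 < ε) : ∀ᶠ t in atTop,
    ∀ μ : Measure (Z1 → Fin 3), IsProbabilityMeasure μ →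
      (evolve N3 (lift3 rule) t μ).real {x | x k ≠ 0} ≤ ε := by
  obtain ⟨i, rfl⟩ : ∃ i, k = e i := ⟨k 0, (e_eq k).symm⟩
  have hL : ∀ a l, LL (fun _ : Fin 3 => False) a l = ∅ := by
    intro a l
    simp [LL]
  have := coal_tendsto N3 (lift3 rule)
    (fun μ : ProbabilityMeasure (Z1 → Fin 3) => (μ : Measure (Z1 → Fin 3))) id
    (fun _ => False) rule_zero (fun u => rule_half _ _ _ 1 (by decide))
    (fun u => rule_half _ _ _ 2 (by decide)) (fun a l ε hε => by
      simp [hL, hε.le]) i 1 ε hε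
  obtain ⟨t0, ht0⟩ := eventually_atTop.1 this
  refine eventually_atTop.2 ⟨t0 + 1, fun t ht μ hμ => ?_⟩
  obtain ⟨s, rfl⟩ : ∃ s, t = s + 1 := ⟨t - 1, by omega⟩
  have h1 := occ_bound N3 (lift3 rule) id (fun _ => False) rule_zero μ s i
  rw [hL, measureReal_empty, add_zero] at h1
  exact h1.trans (ht0 s (by omega) ⟨μ, hμ⟩)

lemma sum_unif (S : Finset Z1) (ε : ℝ) (hε : 0 < ε) : ∀ᶠ t in atTop,
    ∀ μ : Measure (Z1 → Fin 3), IsProbabilityMeasure μ →
      ∑ k ∈ S, (evolve N3 (lift3 rule) t μ).real {x | x k ≠ 0} ≤ ε := by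
  have hp : (0 : ℝ) < S.card + 1 := by positivity
  have h1 := (eventually_all_finset S).2 fun k _ => site_unif k (ε / (S.card + 1)) (by positivity)
  filter_upwards [h1] with t ht μ hμ
  refine (Finset.sum_le_card_nsmul S _ _ fun k hk => ht k hk μ hμ).trans ?_
  rw [nsmul_eq_mul, ← mul_div_assoc, div_le_iff₀ hp]
  nlinarith

lemma eq_dirac (ν : Measure (Z1 → Fin 3)) [IsProbabilityMeasure ν]
    (h : ∀ k, ν {x | x k ≠ 0} = 0) : ν = Measure.dirac fun _ => 0 := by
  have h1 : ∀ᵐ x ∂ν, ∀ k, x k = 0 := ae_all_iff.2 h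
  have h2 : (fun x : Z1 → Fin 3 => x) =ᵐ[ν] fun _ _ => 0 := by
    filter_upwards [h1] with x hx using funext hx
  have h3 : ν.map (fun x : Z1 → Fin 3 => x) = ν.map (fun _ _ => 0) := Measure.map_congr h2
  rw [Measure.map_id', Measure.map_const] at h3
  simpa using h3

lemma slow (t : ℕ) : 1 / ((t : ℝ) + 1) ≤
    (evolve N3 (lift3 rule) t (Measure.dirac fun _ => 1)).real {x | x (e 0) ≠ 0} := by
  set ν := evolve N3 (lift3 rule) t (Measure.dirac fun _ => 1) with hν
  have h1 := ae_evolve_of N3 (lift3 rule) (fun t : ℕ => LL (fun a : Fin 3 => a ≠ 0) 0 (t + 1))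
    (fun t => measurableSet_LL _ _ _) (fun t x hx => by
      filter_upwards [ae_lift3 rule ok rule_ok x] with y hy
      obtain ⟨j, hj, hx⟩ := hx
      have h3 : ∀ c : Fin 3, c ≠ 0 → c = 1 ∨ c = 2 := by decide
      rcases h3 _ hx with h | h
      · exact ⟨j, by omega, (hy _).2 (Or.inl h)⟩
      · refine ⟨j + 1, by omega, (hy _).2 (Or.inr ?_)⟩
        have : (0 : ℤ) + ((j + 1 : ℕ) : ℤ) - 1 = 0 + j := by push_cast; ring
        rwa [this]) (Measure.dirac fun _ => 1)
    ((ae_dirac_iff (measurableSet_LL (fun a : Fin 3 => a ≠ 0) 0 (0 + 1))).2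
      ⟨0, by omega, by simp⟩) t
  have h2 : ν.real (LL (fun a : Fin 3 => a ≠ 0) 0 (t + 1)) = 1 := by
    have h5 : ν (LL (fun a : Fin 3 => a ≠ 0) 0 (t + 1))ᶜ = 0 := h1
    rw [Measure.real, (prob_compl_eq_zero_iff (measurableSet_LL _ _ _)).1 h5, ENNReal.toReal_one]
  have h3 : ∀ j : ℤ, ν.real {x | x (e j) ≠ 0} = ν.real {x | x (e 0) ≠ 0} := by
    intro j
    have h4 : ν.map (shift (e j)) = ν := by
      rw [hν, ← evolve_map_shift, Measure.map_dirac' (measurable_shift _)]
      rfl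
    conv_rhs => rw [← h4]
    rw [Measure.real, Measure.real, Measure.map_apply (measurable_shift _)
      (measurableSet_coord _ fun a : Fin 3 => a ≠ 0)]
    simp [shift, e_add]
  have h4 : ν.real (LL (fun a : Fin 3 => a ≠ 0) 0 (t + 1)) ≤
      ∑ j ∈ Finset.range (t + 1), ν.real {x | x (e j) ≠ 0} := by
    refine le_trans (measureReal_mono ?_ (measure_ne_top _ _)) (measureReal_biUnion_finset_le _ _)
    rintro x ⟨j, hj, hx⟩
    exact Set.mem_iUnion₂.2 ⟨j, Finset.mem_range.2 hj, by simpa using hx⟩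
  simp only [h3, Finset.sum_const, Finset.card_range, nsmul_eq_mul, h2] at h4
  rw [div_le_iff₀ (by positivity)]
  push_cast at h4
  linarith

theorem result : ∃ (N : Finset (Fin 1 → ℤ)) (F : (N → Fin 3) → Measure (Fin 3))
    (π : Measure ((Fin 1 → ℤ) → Fin 3)),
    (∀ u, IsProbabilityMeasure (F u)) ∧ IsErgodic N F π ∧
    (∀ (S : Finset (Fin 1 → ℤ)) (a : (Fin 1 → ℤ) → Fin 3) (ε : ℝ), 0 < ε →
      ∃ t0 : ℕ, ∀ t, t0 ≤ t → ∀ μ : Measure ((Fin 1 → ℤ) → Fin 3), IsProbabilityMeasure μ →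
        |(evolve N F t μ (cyl S a)).toReal - (π (cyl S a)).toReal| ≤ ε) ∧
    ∃ (S : Finset (Fin 1 → ℤ)) (a : (Fin 1 → ℤ) → Fin 3) (μ : Measure ((Fin 1 → ℤ) → Fin 3)),
      IsProbabilityMeasure μ ∧ ¬ ∃ K γ : ℝ, 0 ≤ γ ∧ γ < 1 ∧ ∀ t : ℕ,
        |(evolve N F t μ (cyl S a)).toReal - (π (cyl S a)).toReal| ≤ K * γ ^ t := by
  refine ⟨N3, lift3 rule, Measure.dirac fun _ => 0, inferInstance,
    ⟨inferInstance, ?_, ?_, ?_⟩, ?_, {e 0}, fun _ => 0, Measure.dirac fun _ => 1,
    inferInstance, ?_⟩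
  · refine eq_dirac _ fun k => ?_
    rw [Measure.dirac_bind (measurable_ker _ _)]
    obtain ⟨i, rfl⟩ : ∃ i, k = e i := ⟨k 0, (e_eq k).symm⟩
    have : ∀ᵐ y ∂(ker N3 (lift3 rule) fun _ => 0), y (e i) = 0 := by
      filter_upwards [ae_lift3 rule ok rule_ok fun _ => 0] with y hy
      by_contra hne
      rcases (hy i).1 hne with h | h <;> exact absurd h (by decide)
    exact this
  · intro ν hν hinv
    refine eq_dirac _ fun k => ?_
    rw [← measureReal_eq_zero_iff]
    refine le_antisymm (le_of_forall_pos_le_add fun ε hε => ?_) measureReal_nonneg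
    obtain ⟨t, ht⟩ := (site_unif k ε hε).exists
    have := ht ν hν
    rw [evolve_of_invariant _ _ hinv] at this
    linarith
  · intro μ hμ g
    rw [integral_dirac, Metric.tendsto_nhds]
    intro ε hε
    have hU : {x | dist (g x) (g fun _ => 0) < ε / 3} ∈ 𝓝 (fun _ : Z1 => (0 : Fin 3)) :=
      g.continuous.continuousAt.preimage_mem_nhds (Metric.ball_mem_nhds _ (by positivity))
    rw [nhds_pi, Filter.mem_pi'] at hU
    obtain ⟨S, U, hU, hsub⟩ := hU
    have hM : 0 < 2 * ‖g‖ + 1 := by positivity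
    filter_upwards [sum_unif S (ε / 3 / (2 * ‖g‖ + 1)) (by positivity)] with t ht
    set ν := evolve N3 (lift3 rule) t μ with hν
    have hC := measurableSet_cyl S (fun _ : Z1 => (0 : Fin 3))
    have h1 := (cyl_bound ν (fun _ => 0) S (fun _ => 0)).trans (ht μ hμ)
    have h2 : (Measure.dirac fun _ : Z1 => (0 : Fin 3)).real (cyl S fun _ => 0) = 1 := by
      rw [Measure.real, Measure.dirac_apply' _ hC]
      simp [cyl]
    rw [h2, abs_sub_comm, abs_of_nonneg (sub_nonneg.2 measureReal_le_one),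
      ← probReal_compl_eq_one_sub hC, le_div_iff₀ hM] at h1
    have hg : Integrable g ν := Integrable.of_bound g.continuous.aestronglyMeasurable ‖g‖
      (ae_of_all _ fun x => g.norm_coe_le_norm x)
    have hi : Integrable ((cyl S fun _ : Z1 => (0 : Fin 3))ᶜ.indicator
        (1 : (Z1 → Fin 3) → ℝ)) ν := (integrable_const (1 : ℝ)).indicator hC.compl
    have h3 : ∫ x, g x ∂ν - g (fun _ => 0) = ∫ x, (g x - g (fun _ => 0)) ∂ν := by
      rw [integral_sub hg (integrable_const _)]
      simp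
    rw [Real.dist_eq, h3, ← Real.norm_eq_abs]
    refine lt_of_le_of_lt (norm_integral_le_of_norm_le
      ((integrable_const (ε / 3)).add (hi.const_mul (2 * ‖g‖ + 1))) (ae_of_all _ fun x => ?_)) ?_
    · simp only [Pi.add_apply]
      by_cases hx : x ∈ cyl S fun _ : Z1 => (0 : Fin 3)
      · have h4 : dist (g x) (g fun _ => 0) < ε / 3 := hsub fun k hk => by
          rw [hx k hk]
          exact mem_of_mem_nhds (hU k)
        rw [Set.indicator_of_notMem (by simpa using hx), mul_zero, add_zero, ← dist_eq_norm]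
        exact h4.le
      · rw [Set.indicator_of_mem (by simpa using hx), Pi.one_apply, mul_one]
        have := norm_sub_le (g x) (g fun _ => 0)
        linarith [g.norm_coe_le_norm x, g.norm_coe_le_norm fun _ => 0]
    · rw [integral_add' (integrable_const _) (hi.const_mul _), integral_const_mul,
        integral_indicator_one hC.compl]
      simp only [integral_const, probReal_univ, smul_eq_mul, one_mul]
      linarith
  · intro S a ε hε
    obtain ⟨t0, ht0⟩ := eventually_atTop.1 (sum_unif S ε hε)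
    exact ⟨t0, fun t ht μ hμ => (cyl_bound _ (fun _ => 0) S a).trans (ht0 t ht μ hμ)⟩
  · rintro ⟨K, γ, h0, h1, h⟩
    have hC := measurableSet_cyl {e 0} (fun _ : Z1 => (0 : Fin 3))
    have h2 : ((Measure.dirac fun _ : Z1 => (0 : Fin 3)) (cyl {e 0} fun _ => 0)).toReal = 1 := by
      rw [Measure.dirac_apply' _ hC]
      simp [cyl]
    have h3 : ∀ t : ℕ, 1 ≤ K * ((t : ℝ) ^ 1 * γ ^ t + γ ^ t) := by
      intro t
      have h4 := h t
      have h5 := slow t
      have h6 : {x : Z1 → Fin 3 | x (e 0) ≠ 0} = (cyl {e 0} fun _ => 0)ᶜ := by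
        ext x
        simp [cyl]
      rw [h6, probReal_compl_eq_one_sub hC, div_le_iff₀ (by positivity)] at h5
      rw [h2, abs_sub_comm] at h4
      have h7 := (le_abs_self _).trans h4
      have h8 : (0 : ℝ) ≤ (t : ℝ) + 1 := by positivity
      have h9 := mul_le_mul_of_nonneg_right h7 h8
      simp only [Measure.real] at h5
      nlinarith
    have h4 := ((tendsto_pow_const_mul_const_pow_of_lt_one 1 h0 h1).add
      (tendsto_pow_atTop_nhds_zero_of_lt_one h0 h1)).const_mul K
    have h5 := ge_of_tendsto' h4 h3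
    norm_num at h5

end Pool.Agent.Results.MP_37af32_pr.Slow
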